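import Mathlib
import Pool.Agent.SeqK.Main

/-!
MP_4e1fb1_an, Q1: full negative answer. There is a compact Hausdorff space `K` such that
`Ba(C_p(K)) = Ba(C_w(K))` but `Seq(co Δ_K) ≠ P(K)`.
All problem level definitions are in `Pool/Agent/SeqK/Defs.lean`.
-/

namespace Pool.Agent.Results.MP_4e1fb1_an.BaireWithoutSeq

open Pool.Agent.SeqK

/-- There is a compact Hausdorff space `K` with its Borel sigma-algebra for which
`Ba(C_p(K)) = Ba(C_w(K))` holds and `Seq(co Δ_K) = P(K)` fails. -/
theorem result : ∃ (K : Type) (_ : TopologicalSpace K) (_ : CompactSpace K) (_ : T2Space K)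
    (_ : MeasurableSpace K) (_ : BorelSpace K), BaireProp K ∧ ¬ SeqProp K := by
  exact ⟨KK, inferInstance, inferInstance, inferInstance, borel KK,
    @BorelSpace.mk KK _ (borel KK) rfl, baireProp,
    @not_seqProp (borel KK) (@BorelSpace.mk KK _ (borel KK) rfl)⟩

end Pool.Agent.Results.MP_4e1fb1_an.BaireWithoutSeq
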